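import Pool.Agent.Helper83.HL.St

/-!
Project HL (MP_8be7de_nt), module B
-/

set_option autoImplicit false

namespace Pool.Agent.Helper85.HL

open Classical
open Pool.Agent.Helper83.HL

theorem card_units_prime (q : ℕ) (hq : q.Prime) : Nat.card (ZMod q)ˣ = q - 1 := by
  have : Fact q.Prime := ⟨hq⟩
  rw [Nat.card_eq_fintype_card, ZMod.card_units]

theorem Hs_mono (q m m' : ℕ) (h : m ≤ m') : Hs q m ≤ Hs q m' := by
  apply Subgroup.closure_mono
  rintro u ⟨k, h1, h2, h3⟩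
  exact ⟨k, h1, h2.trans h, h3⟩

theorem Dq_dvd (q m : ℕ) (hq : q.Prime) : Dq q m ∣ q - 1 := by
  rw [← card_units_prime q hq]
  exact Subgroup.card_subgroup_dvd_card _

theorem Dq_mono (q m m' : ℕ) (h : m ≤ m') : Dq q m ∣ Dq q m' :=
  Subgroup.card_dvd_of_le (Hs_mono q m m' h)

theorem gcd_iff (hA : StA) (n m : ℕ) (hn : 1 ≤ n) (hm : 3 ≤ m)
    (hb : ∀ q : ℕ, Bad q m → ¬ Dq q m ∣ n) (m' : ℕ) (hm' : m ≤ m') :
    (Finset.Icc 2 m').gcd (fun k => k ^ n - 1) ≠ 1 ↔ ∃ q : ℕ, q.Prime ∧ m' < q ∧ q - 1 ∣ n := by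
  rw [hA n m' hn (by omega)]
  constructor
  · rintro ⟨q, hq, h1, h2⟩
    refine ⟨q, hq, h1, ?_⟩
    have htop : Hs q m = ⊤ := by
      by_contra hne
      exact hb q ⟨hq, by omega, hne⟩ ((Dq_mono q m m' hm').trans h2)
    have htop' : Hs q m' = ⊤ := by
      rw [eq_top_iff, ← htop]
      exact Hs_mono q m m' hm'
    have : Dq q m' = q - 1 := by
      unfold Dq
      rw [htop', Subgroup.card_top, card_units_prime q hq]
    rwa [this] at h2
  · rintro ⟨q, hq, h1, h2⟩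
    exact ⟨q, hq, h1, (Dq_dvd q m' hq).trans h2⟩

theorem mB : StA → StB := by
  intro hA n m hn hm hb p hp hmp
  have key := gcd_iff hA n m hn hm hb
  have hle : IsLeast (hS n) p ↔ ((Finset.Icc 2 p).gcd (fun k => k ^ n - 1) = 1 ∧
      (Finset.Icc 2 (p - 1)).gcd (fun k => k ^ n - 1) ≠ 1) := by
    constructor
    · rintro ⟨h1, h2⟩
      refine ⟨h1.2, fun h3 => ?_⟩
      have h4 : p ≤ p - 1 := h2 ⟨by omega, h3⟩
      omega
    · rintro ⟨h1, h2⟩
      refine ⟨⟨by omega, h1⟩, ?_⟩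
      rintro m' ⟨h3, h4⟩
      by_contra h5
      rw [not_le] at h5
      apply h2
      have h6 : (Finset.Icc 2 (p - 1)).gcd (fun k => k ^ n - 1) ∣
          (Finset.Icc 2 m').gcd (fun k => k ^ n - 1) :=
        Finset.gcd_mono (Finset.Icc_subset_Icc_right (by omega))
      rw [h4] at h6
      exact Nat.dvd_one.1 h6
  rw [hle, key (p - 1) (by omega)]
  have h1 : (Finset.Icc 2 p).gcd (fun k => k ^ n - 1) = 1 ↔
      ¬ ∃ q : ℕ, q.Prime ∧ p < q ∧ q - 1 ∣ n := by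
    rw [← key p (by omega), not_not]
  rw [h1]
  constructor
  · rintro ⟨h2, q, hq, h3, h4⟩
    have hqp : q = p := by
      by_contra hne
      exact h2 ⟨q, hq, by omega, h4⟩
    rw [hqp] at h4
    refine ⟨⟨hp, h4⟩, ?_⟩
    rintro r ⟨hr, hr2⟩
    by_contra h5
    rw [not_le] at h5
    exact h2 ⟨r, hr, h5, hr2⟩
  · rintro ⟨⟨_, h2⟩, h3⟩
    refine ⟨?_, p, hp, by omega, h2⟩
    rintro ⟨q, hq, h4, h5⟩
    have := h3 (show q ∈ pS n from ⟨hq, h5⟩)
    omega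

end Pool.Agent.Helper85.HL
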